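import Mathlib

set_option autoImplicit false

namespace Pool.Agent.H.MP_84e5ad_an

open Finset Filter Topology Complex Metric

variable {ι : Type*} [Fintype ι]

/-- exponential polynomial -/
noncomputable def ψ (t : ι → ℝ) (a : ι → ℂ) (w : ℂ) : ℂ := ∑ i, a i * exp (w * t i)

theorem ψ_diff (t : ι → ℝ) (a : ι → ℂ) : Differentiable ℂ (ψ t a) := by
  unfold ψ; fun_prop

/-- exponential character -/
noncomputable def chr (x : ℝ) : Multiplicative ℂ →* ℂ where
  toFun w := exp (w.toAdd * x)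
  map_one' := by simp
  map_mul' a b := by simp [add_mul, exp_add]

theorem ψ_ne (t : ι → ℝ) (ht : Function.Injective t) (a : ι → ℂ) (ha : a ≠ 0) (w0 : ℂ) :
    ∀ᶠ w in 𝓝[≠] w0, ψ t a w ≠ 0 := by
  have an : AnalyticOnNhd ℂ (ψ t a) Set.univ := fun z _ => (ψ_diff t a).analyticAt z
  refine (an w0 trivial).eventually_eq_zero_or_eventually_ne_zero.resolve_left fun h => ha ?_
  have h0 := an.eqOn_zero_of_preconnected_of_eventuallyEq_zero isPreconnected_univ
    (Set.mem_univ w0) h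
  have li := (linearIndependent_monoidHom (Multiplicative ℂ) ℂ).comp (fun i => chr (t i))
    (fun i j e => ht (by
      have := DFunLike.congr_fun e (Multiplicative.ofAdd 1)
      simp only [chr, MonoidHom.coe_mk, OneHom.coe_mk, toAdd_ofAdd, one_mul, ← ofReal_exp,
        ofReal_inj] at this
      exact Real.exp_injective this))
  funext i
  refine Fintype.linearIndependent_iff.1 li a ?_ i
  funext w
  simpa [ψ, chr] using h0 (Set.mem_univ w.toAdd)

theorem circ (t : ι → ℝ) (ht : Function.Injective t) : ∃ δ > 0, ∀ a : ι → ℂ, ‖a‖ = 1 →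
    ∃ r, 0 < r ∧ r ≤ 1 ∧ ∀ w : ℂ, ‖w‖ = r → δ ≤ ‖ψ t a w‖ := by
  have := (isCompact_sphere (0 : ι → ℂ) 1).induction_on (p := fun S => ∃ δ > 0, ∀ a ∈ S,
    ∃ r, 0 < r ∧ r ≤ 1 ∧ ∀ w : ℂ, ‖w‖ = r → δ ≤ ‖ψ t a w‖) ⟨1, one_pos, by simp⟩
    (fun s t h ⟨δ, h1, h2⟩ => ⟨δ, h1, fun a ha => h2 a (h ha)⟩) ?_ ?_
  · obtain ⟨δ, h1, h2⟩ := this
    exact ⟨δ, h1, fun a ha => h2 a (by simpa using ha)⟩
  · rintro s s' ⟨δ, h1, h2⟩ ⟨δ', h1', h2'⟩
    refine ⟨min δ δ', lt_min h1 h1', ?_⟩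
    rintro a (ha | ha)
    · obtain ⟨r, a1, a2, a3⟩ := h2 a ha
      exact ⟨r, a1, a2, fun w hw => (min_le_left _ _).trans (a3 w hw)⟩
    · obtain ⟨r, a1, a2, a3⟩ := h2' a ha
      exact ⟨r, a1, a2, fun w hw => (min_le_right _ _).trans (a3 w hw)⟩
  · intro a ha
    have ha0 : a ≠ 0 := by rintro rfl; simp at ha
    obtain ⟨ε, hε, h⟩ := Metric.mem_nhdsWithin_iff.1 (ψ_ne t ht a ha0 0)
    set r := min (ε / 2) 1 with hr
    have r0 : 0 < r := lt_min (by linarith) one_pos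
    have r1 : r < ε := (min_le_left _ _).trans_lt (by linarith)
    obtain ⟨w0, hw0, hmin⟩ := (isCompact_sphere (0 : ℂ) r).exists_isMinOn
      (NormedSpace.sphere_nonempty.2 r0.le) (ψ_diff t a).continuous.norm.continuousOn
    have hw0' : ‖w0‖ = r := by simpa using hw0
    have p : 0 < ‖ψ t a w0‖ := norm_pos_iff.2 (h ⟨by simpa [hw0'] using r1, by
      rintro rfl; simp at hw0'; linarith⟩)
    have ev := (isCompact_sphere (0 : ℂ) r).eventually_forall_of_forall_eventually (x₀ := a)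
      (P := fun b w => ‖ψ t a w0‖ / 2 < ‖ψ t b w‖) fun w hw => by
        have c : Continuous fun z : (ι → ℂ) × ℂ => ‖ψ t z.1 z.2‖ := by unfold ψ; fun_prop
        have : ‖ψ t a w0‖ ≤ ‖ψ t a w‖ := hmin hw
        exact c.continuousAt.eventually (lt_mem_nhds (by simp only; linarith))
    exact ⟨_, mem_nhdsWithin_of_mem_nhds ev, ‖ψ t a w0‖ / 2, by linarith, fun b hb =>
      ⟨r, r0, min_le_right _ _, fun w hw => (hb w (by simpa using hw)).le⟩⟩

/-- truncated transform -/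
noncomputable def E (u : ℝ → ℂ) (r : ℝ) (w : ℂ) : ℂ := ∫ s in (0 : ℝ)..r, exp (w * (r - s)) * u s

theorem E_diff (u : ℝ → ℂ) (hu : Continuous u) (r : ℝ) : Differentiable ℂ (E u r) := by
  intro w0
  have c : Continuous fun z : ℂ × ℝ => ‖exp (z.1 * (r - z.2)) * (r - z.2) * u z.2‖ := by fun_prop
  obtain ⟨B, hB⟩ := ((isCompact_closedBall w0 1).prod (isCompact_uIcc (a := 0) (b := r))).bddAbove_image
    c.continuousOn
  refine (intervalIntegral.hasDerivAt_integral_of_dominated_loc_of_deriv_le (μ := MeasureTheory.volume)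
    (F := fun w s => exp (w * (r - s)) * u s) (F' := fun w s => exp (w * (r - s)) * (r - s) * u s)
    (bound := fun _ => B) (closedBall_mem_nhds w0 one_pos)
    (Eventually.of_forall fun w => Continuous.aestronglyMeasurable (by fun_prop))
    (Continuous.intervalIntegrable (by fun_prop) _ _)
    (Continuous.aestronglyMeasurable (by fun_prop))
    (Eventually.of_forall fun s hs w hw => hB ⟨(w, s), ⟨hw, Set.uIoc_subset_uIcc hs⟩, rfl⟩)
    intervalIntegrable_const (Eventually.of_forall fun s _ w _ => ?_)).2.differentiableAt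
  exact (((hasDerivAt_id w).mul_const ((r : ℂ) - s)).cexp.mul_const (u s)).congr_deriv (by simp)

theorem E_le (u : ℝ → ℂ) (r M : ℝ) (hr : 0 ≤ r) (h : ∀ s ∈ Set.Icc 0 r, ‖u s‖ ≤ M) (w : ℂ) :
    ‖E u r w‖ ≤ ∫ s in (0 : ℝ)..r, Real.exp (w.re * (r - s)) * M := by
  refine intervalIntegral.norm_integral_le_of_norm_le hr (Eventually.of_forall fun s hs => ?_)
    (Continuous.intervalIntegrable (by fun_prop) _ _)
  rw [norm_mul, norm_exp]
  have : (w * ((r : ℂ) - s)).re = w.re * (r - s) := by simp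
  rw [this]
  exact mul_le_mul_of_nonneg_left (h s (Set.Ioc_subset_Icc_self hs)) (Real.exp_pos _).le

theorem E_le1 (u : ℝ → ℂ) (r M : ℝ) (hr : 0 ≤ r) (h : ∀ s ∈ Set.Icc 0 r, ‖u s‖ ≤ M) (w : ℂ) :
    ‖E u r w‖ ≤ (1 + Real.exp (w.re * r)) * M * r := by
  have M0 : 0 ≤ M := (norm_nonneg _).trans (h 0 ⟨le_rfl, hr⟩)
  refine (E_le u r M hr h w).trans ?_
  have := intervalIntegral.integral_mono_on (μ := MeasureTheory.volume) hr
    (f := fun s => Real.exp (w.re * (r - s)) * M) (g := fun _ => (1 + Real.exp (w.re * r)) * M)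
    (Continuous.intervalIntegrable (by fun_prop) _ _) intervalIntegrable_const fun s hs => by
      refine mul_le_mul_of_nonneg_right ?_ M0
      rcases le_total 0 w.re with q | q
      · have : Real.exp (w.re * (r - s)) ≤ Real.exp (w.re * r) :=
          Real.exp_le_exp.2 (mul_le_mul_of_nonneg_left (by linarith [hs.1]) q)
        linarith
      · have : Real.exp (w.re * (r - s)) ≤ 1 :=
          Real.exp_le_one_iff.2 (mul_nonpos_of_nonpos_of_nonneg q (by linarith [hs.2]))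
        linarith [Real.exp_pos (w.re * r)]
  refine this.trans_eq ?_
  rw [intervalIntegral.integral_const, smul_eq_mul]; ring

theorem E_le2 (u : ℝ → ℂ) (r M : ℝ) (hr : 0 ≤ r) (h : ∀ s ∈ Set.Icc 0 r, ‖u s‖ ≤ M) (w : ℂ)
    (hw : 0 < w.re) : ‖E u r w‖ ≤ Real.exp (w.re * r) * M / w.re := by
  have M0 : 0 ≤ M := (norm_nonneg _).trans (h 0 ⟨le_rfl, hr⟩)
  refine (E_le u r M hr h w).trans ?_
  rw [intervalIntegral.integral_eq_sub_of_hasDerivAt
    (f := fun s => -(Real.exp (w.re * (r - s)) * M / w.re)) (fun s _ => ?_)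
    (Continuous.intervalIntegrable (by fun_prop) _ _)]
  · have : 0 ≤ M / w.re := by positivity
    simp only [sub_self, mul_zero, Real.exp_zero, one_mul, sub_zero]
    linarith
  · refine (((((hasDerivAt_id s).const_sub r).const_mul w.re).exp.mul_const M).div_const
      w.re).neg.congr_deriv ?_
    simp only [id]
    field_simp

/-- the numerator -/
noncomputable def g (t : ι → ℝ) (c : ι → ℂ) (u : ℝ → ℂ) (w : ℂ) : ℂ := ∑ i, c i * E u (t i) w

theorem g_diff (t : ι → ℝ) (c : ι → ℂ) (u : ℝ → ℂ) (hu : Continuous u) :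
    Differentiable ℂ (g t c u) :=
  Differentiable.fun_sum fun i _ => (E_diff u hu (t i)).const_mul _

theorem shift (t : ι → ℝ) (c : ι → ℂ) (u : ℝ → ℂ) (hu : Continuous u) (r : ℝ) (hr : 0 ≤ r)
    (h : ∀ s, 0 ≤ s → ∑ i, c i * u (s + t i) = 0) (w : ℂ) :
    exp (w * r) * g t c u w - g t c (fun s => u (s + r)) w = ψ t c w * E u r w := by
  let v : ℝ → ℂ := fun s => exp (-(w * s)) * u s
  have hv : ∀ a b, IntervalIntegrable v MeasureTheory.volume a b := fun a b =>
    Continuous.intervalIntegrable (by fun_prop) _ _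
  have e1 : ∀ x y : ℝ, E (fun s => u (s + y)) x w = exp (w * (x + y)) * ∫ s in y..x + y, v s := by
    intro x y
    have := intervalIntegral.integral_comp_add_right (a := 0) (b := x) v y
    rw [zero_add] at this
    rw [← this, E, ← intervalIntegral.integral_const_mul]
    refine intervalIntegral.integral_congr fun s _ => ?_
    simp only [v, ← mul_assoc, ← exp_add]
    push_cast; ring_nf
  have e0 : ∀ x : ℝ, E u x w = exp (w * x) * ∫ s in (0 : ℝ)..x, v s := by
    intro x; simpa using e1 x 0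
  have e2 : ∑ i, c i * E (fun s => u (s + t i)) r w = 0 := by
    simp only [E, ← intervalIntegral.integral_const_mul]
    rw [← intervalIntegral.integral_finsetSum fun i _ =>
      Continuous.intervalIntegrable (by fun_prop) _ _]
    refine (intervalIntegral.integral_congr (g := fun _ => (0 : ℂ)) fun s hs => ?_).trans (by simp)
    rw [Set.uIcc_of_le hr] at hs
    have := h s hs.1
    simp only [mul_left_comm (c _), ← mul_sum, this, mul_zero]
  rw [← sub_zero (ψ t c w * E u r w), ← e2, g, g, ψ, mul_sum, sum_mul, ← sum_sub_distrib,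
    ← sum_sub_distrib]
  refine sum_congr rfl fun i _ => ?_
  rw [e1, e1, e0, e0, add_comm r (t i), add_comm (r : ℂ) (t i), mul_add, exp_add]
  have a1 := intervalIntegral.integral_add_adjacent_intervals (hv 0 r) (hv r (t i + r))
  have a2 := intervalIntegral.integral_add_adjacent_intervals (hv 0 (t i)) (hv (t i) (t i + r))
  linear_combination (c i * exp (w * t i) * exp (w * r)) * (a2 - a1)

theorem divide (f φ : ℂ → ℂ) (hφ : ∀ w0, ∀ᶠ w in 𝓝[≠] w0, φ w ≠ 0)
    (h : ∀ w0, ∃ q, AnalyticAt ℂ q w0 ∧ ∀ᶠ w in 𝓝 w0, f w = q w * φ w) :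
    ∃ F, Differentiable ℂ F ∧ ∀ w, f w = F w * φ w := by
  choose q h1 h2 using h
  refine ⟨fun w => q w w, fun w0 => ?_, fun w => (h2 w).self_of_nhds⟩
  refine (h1 w0).differentiableAt.congr_of_eventuallyEq ?_
  rw [Filter.EventuallyEq, ← nhdsNE_sup_pure, eventually_sup]
  refine ⟨?_, by simp⟩
  filter_upwards [hφ w0, nhdsWithin_le_nhds (h2 w0)] with w a b
  exact mul_right_cancel₀ a ((h2 w).self_of_nhds.symm.trans b)

theorem glob (t : ι → ℝ) (ht : Function.Injective t) (t0 : ∀ i, 0 ≤ t i) (c : ι → ℂ) (i0 : ι)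
    (hi : t i0 = 0) (hc : c i0 ≠ 0) (u : ℝ → ℂ) (M : ℝ)
    (hM : ∀ i, ∀ s ∈ Set.Icc 0 (t i), ‖u s‖ ≤ M)
    (F : ℂ → ℂ) (hF : Differentiable ℂ F) (h : ∀ w, g t c u w = F w * ψ t c w) (z : ℂ) :
    F z = 0 := by
  obtain ⟨δ, δ0, hδ⟩ := circ t ht
  have M0 : 0 ≤ M := (norm_nonneg _).trans (hM i0 0 ⟨le_rfl, t0 i0⟩)
  let a : ℂ → ι → ℂ := fun z i => c i * exp (z * t i)
  have a1 : ∀ z i, ‖c i‖ * Real.exp (z.re * t i) ≤ ‖a z‖ := fun z i => by
    have := norm_le_pi_norm (a z) i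
    simpa [a, norm_exp] using this
  have c0 : 0 < ‖c i0‖ := norm_pos_iff.2 hc
  have a2 : ∀ z, ‖c i0‖ ≤ ‖a z‖ := fun z => by simpa [hi] using a1 z i0
  have key : ∀ z B, (∀ w, ‖w‖ ≤ 1 → ‖g t c u (z + w)‖ ≤ B * ‖a z‖) → ‖F z‖ ≤ B / δ := by
    intro z B hB
    have p : 0 < ‖a z‖ := c0.trans_le (a2 z)
    obtain ⟨r, r0, r1, hr⟩ := hδ (((‖a z‖ : ℂ))⁻¹ • a z) (by
      rw [norm_smul, norm_inv, norm_real, norm_norm, inv_mul_cancel₀ p.ne'])
    refine norm_le_of_forall_mem_frontier_norm_le (U := ball z r) isBounded_ball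
      hF.diffContOnCl (fun y hy => ?_) (subset_closure (mem_ball_self r0))
    rw [frontier_ball z r0.ne'] at hy
    obtain ⟨w, rfl⟩ : ∃ w, y = z + w := ⟨y - z, by ring⟩
    have hw : ‖w‖ = r := by simpa using hy
    have e : ψ t (((‖a z‖ : ℂ))⁻¹ • a z) w = (‖a z‖ : ℂ)⁻¹ * ψ t c (z + w) := by
      simp only [ψ, mul_sum, a, Pi.smul_apply, smul_eq_mul, add_mul, exp_add, mul_assoc]
    have b1 := hr w hw
    rw [e, norm_mul, norm_inv, norm_real, norm_norm, le_inv_mul_iff₀ p] at b1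
    have b2 := hB w (hw.le.trans r1)
    rw [h, norm_mul] at b2
    rw [le_div_iff₀ δ0]
    refine le_of_mul_le_mul_right (le_trans ?_ b2) p
    rw [mul_assoc, mul_comm δ]
    exact mul_le_mul_of_nonneg_left b1 (norm_nonneg _)
  have ex : ∀ (z w : ℂ) i, ‖w‖ ≤ 1 →
      ‖c i‖ * Real.exp ((z + w).re * t i) ≤ Real.exp (t i) * ‖a z‖ := by
    intro z w i hw
    have h1 : w.re ≤ 1 := (re_le_norm w).trans hw
    rw [add_re, add_mul, Real.exp_add, ← mul_assoc, mul_comm (Real.exp (t i))]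
    exact mul_le_mul (a1 z i) (Real.exp_le_exp.2 (by nlinarith [t0 i])) (Real.exp_pos _).le
      (norm_nonneg _)
  have bd : ∀ z, ‖F z‖ ≤ (∑ i, (‖c i‖ / ‖c i0‖ + Real.exp (t i)) * M * t i) / δ := by
    refine fun z => key z _ fun w hw => (norm_sum_le _ _).trans ?_
    rw [sum_mul]
    refine sum_le_sum fun i _ => ?_
    have h1 := E_le1 u (t i) M (t0 i) (hM i) (z + w)
    have h2 := ex z w i hw
    have h3 : ‖c i‖ ≤ ‖c i‖ / ‖c i0‖ * ‖a z‖ := by
      rw [div_mul_eq_mul_div, le_div_iff₀ c0]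
      exact mul_le_mul_of_nonneg_left (a2 z) (norm_nonneg _)
    have h4 := mul_nonneg M0 (t0 i)
    rw [norm_mul]
    calc ‖c i‖ * ‖E u (t i) (z + w)‖ ≤ ‖c i‖ * ((1 + Real.exp ((z + w).re * t i)) * M * t i) :=
          mul_le_mul_of_nonneg_left h1 (norm_nonneg _)
      _ = (‖c i‖ + ‖c i‖ * Real.exp ((z + w).re * t i)) * (M * t i) := by ring
      _ ≤ (‖c i‖ / ‖c i0‖ * ‖a z‖ + Real.exp (t i) * ‖a z‖) * (M * t i) := by gcongr
      _ = _ := by ring
  have dec : ∀ x : ℝ, 0 < x → ‖F (x + 1 : ℝ)‖ ≤ (∑ i, Real.exp (t i) * M / x) / δ := by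
    refine fun x hx => key _ _ fun w hw => (norm_sum_le _ _).trans ?_
    rw [sum_mul]
    refine sum_le_sum fun i _ => ?_
    have h0 : x ≤ (((x + 1 : ℝ) : ℂ) + w).re := by
      have := (abs_le.1 ((abs_re_le_norm w).trans hw)).1
      simp only [add_re, ofReal_re]; linarith
    have h1 := E_le2 u (t i) M (t0 i) (hM i) _ (hx.trans_le h0)
    have h2 := ex (x + 1 : ℝ) w i hw
    rw [norm_mul]
    calc ‖c i‖ * ‖E u (t i) ((x + 1 : ℝ) + w)‖
        ≤ ‖c i‖ * (Real.exp ((((x + 1 : ℝ) : ℂ) + w).re * t i) * M / x) := by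
          refine mul_le_mul_of_nonneg_left (h1.trans ?_) (norm_nonneg _)
          gcongr
      _ = (‖c i‖ * Real.exp ((((x + 1 : ℝ) : ℂ) + w).re * t i)) * (M / x) := by ring
      _ ≤ (Real.exp (t i) * ‖a (x + 1 : ℝ)‖) * (M / x) := by gcongr
      _ = _ := by ring
  have cst := hF.apply_eq_apply_of_bounded (isBounded_iff_forall_norm_le.2
    ⟨_, by rintro _ ⟨z, rfl⟩; exact bd z⟩) z
  have lim : Tendsto (fun x : ℝ => (∑ i, Real.exp (t i) * M / x) / δ) atTop (𝓝 0) := by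
    have := (tendsto_finsetSum (univ : Finset ι) fun i _ =>
      (tendsto_const_nhds (x := Real.exp (t i) * M)).div_atTop (tendsto_id (x := atTop))).div_const δ
    simpa using this
  refine norm_le_zero_iff.1 (ge_of_tendsto lim ?_)
  filter_upwards [eventually_gt_atTop 0] with x hx
  rw [cst]; exact dec x hx

end Pool.Agent.H.MP_84e5ad_an
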