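import Mathlib
import Pool.Agent.H.MP_84e5ad_an.A

set_option autoImplicit false

namespace Pool.Agent.H.MP_84e5ad_an

open Finset Filter Topology Complex Metric

theorem ext_at {f f' : ℂ → ℂ} {w0 : ℂ} (hf : ContinuousAt f w0) (hf' : ContinuousAt f' w0)
    (h : ∀ᶠ w in 𝓝[≠] w0, f w = f' w) : f w0 = f' w0 :=
  tendsto_nhds_unique_of_eventuallyEq (hf.tendsto.mono_left nhdsWithin_le_nhds)
    (hf'.tendsto.mono_left nhdsWithin_le_nhds) h

theorem vanish {X : Type*} [NormedAddCommGroup X] (h : X → ℂ) (C : ℝ)
    (hC : ∀ x y z, ‖h x - h y - h z‖ ≤ C * ‖x - y - z‖) (p : ℝ → X) (w : ℂ)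
    (hd : Dense (p '' Set.Ici 0)) (hp : ∀ r, 0 ≤ r → h (p r) = exp (w * r) * h (p 0)) (y : X) :
    h y = 0 := by
  have h0 : h 0 = 0 := by simpa using hC 0 0 0
  have hc : Continuous h := by
    refine (LipschitzWith.of_dist_le' (K := C) fun x y => ?_).continuous
    simpa [h0, dist_eq_norm] using hC x y 0
  have h2 : ∀ x, h (x + x) = 2 * h x := fun x => by
    have := hC (x + x) x x
    simp only [add_sub_cancel_right, sub_self, norm_zero, mul_zero, norm_le_zero_iff] at this
    linear_combination this
  have nm : ∀ r, 0 ≤ r → ‖h (p r)‖ = Real.exp (w.re * r) * ‖h (p 0)‖ := fun r hr => by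
    rw [hp r hr, norm_mul, norm_exp]; simp
  have bd : ∀ x, ‖h x‖ ≤ ‖h (p 0)‖ := by
    rcases le_total w.re 0 with q | q
    · refine fun x => hd.induction ?_ (isClosed_le hc.norm continuous_const) x
      rintro _ ⟨r, hr, rfl⟩
      rw [nm r hr]
      exact mul_le_of_le_one_left (norm_nonneg _)
        (Real.exp_le_one_iff.2 (mul_nonpos_of_nonpos_of_nonneg q hr))
    · have : ‖h (p 0)‖ ≤ ‖h 0‖ := by
        refine hd.induction (P := fun x => ‖h (p 0)‖ ≤ ‖h x‖) ?_
          (isClosed_le continuous_const hc.norm) 0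
        rintro _ ⟨r, hr, rfl⟩
        rw [nm r hr]
        exact le_mul_of_one_le_left (norm_nonneg _) (Real.one_le_exp (mul_nonneg q hr))
      rw [h0, norm_zero] at this
      refine fun x => hd.induction ?_ (isClosed_le hc.norm continuous_const) x
      rintro _ ⟨r, hr, rfl⟩
      rw [nm r hr, le_antisymm this (norm_nonneg _), mul_zero]
  have it : ∀ k : ℕ, ∀ x, ‖h x‖ ≤ ‖h (p 0)‖ * (1 / 2) ^ k := by
    intro k
    induction k with
    | zero => simpa using bd
    | succ k ih =>
      intro x
      have := ih (x + x)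
      rw [h2, norm_mul, Complex.norm_two] at this
      rw [pow_succ]; linarith
  have lim := (tendsto_pow_atTop_nhds_zero_of_lt_one (by norm_num : (0 : ℝ) ≤ 1 / 2)
    (by norm_num)).const_mul ‖h (p 0)‖
  rw [mul_zero] at lim
  exact norm_le_zero_iff.1 (ge_of_tendsto' lim fun k => it k y)

theorem core {ι : Type*} [Fintype ι] {X : Type*} [NormedAddCommGroup X]
    (t : ι → ℝ) (ht : Function.Injective t) (t0 : ∀ i, 0 ≤ t i) (c : ι → ℂ) (i0 : ι)
    (hi : t i0 = 0) (hc : c i0 ≠ 0) (u : X → ℝ → ℂ) (hu : ∀ y, Continuous (u y))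
    (add : ∀ x y s, u (x - y) s = u x s - u y s) (K : ℝ)
    (hK : ∀ y i, ∀ s ∈ Set.Icc 0 (t i), ‖u y s‖ ≤ K * ‖y‖)
    (S : ℝ → X → X) (hS : ∀ r y s, 0 ≤ r → 0 ≤ s → u (S r y) s = u y (s + r))
    (rel : ∀ y s, 0 ≤ s → ∑ i, c i * u y (s + t i) = 0)
    (z : X) (z0 : S 0 z = z) (hd : Dense ((fun r => S r z) '' Set.Ici 0)) (y : X) : u y 1 = 0 := by
  have hφ := ψ_ne t ht c (fun e => hc (congrFun e i0))
  have gS : ∀ r y, 0 ≤ r → g t c (u (S r y)) = g t c fun s => u y (s + r) := by
    intro r y hr
    funext w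
    refine sum_congr rfl fun i _ => congrArg _ (intervalIntegral.integral_congr fun s hs => ?_)
    rw [Set.uIcc_of_le (t0 i)] at hs
    simp only [hS r y s hr hs.1]
  have sh : ∀ (r : ℝ) y w, 0 ≤ r →
      exp (w * r) * g t c (u y) w - g t c (u (S r y)) w = ψ t c w * E (u y) r w := by
    intro r y w hr
    rw [gS r y hr]; exact shift t c _ (hu y) r hr (rel y) w
  have gadd : ∀ x y w, g t c (u (x - y)) w = g t c (u x) w - g t c (u y) w := by
    intro x y w
    simp only [g, E, add, mul_sub, ← sum_sub_distrib]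
    refine sum_congr rfl fun i _ => ?_
    have := hu x
    have := hu y
    rw [intervalIntegral.integral_sub (Continuous.intervalIntegrable (by fun_prop) _ _)
      (Continuous.intervalIntegrable (by fun_prop) _ _), mul_sub]
  have loc : ∀ w0 y, ∃ q, AnalyticAt ℂ q w0 ∧ ∀ᶠ w in 𝓝 w0, g t c (u y) w = q w * ψ t c w := by
    intro w0
    obtain ⟨m, b, b1, b2, b3⟩ := ((ψ_diff t c).analyticAt w0).exists_eventuallyEq_pow_smul_nonzero_iff.2
      fun h => ((hφ w0).and (nhdsWithin_le_nhds h)).exists.elim fun w hw => hw.1 hw.2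
    have ind : ∀ k ≤ m, ∀ y, ∃ a, Differentiable ℂ a ∧ ∀ w, g t c (u y) w = (w - w0) ^ k * a w := by
      intro k
      induction k with
      | zero => exact fun _ y => ⟨_, g_diff t c _ (hu y), by simp⟩
      | succ k ih =>
        intro hk
        choose a a1 a2 using ih (by omega)
        have z1 : ∀ y, a y w0 = 0 := by
          refine vanish (fun y => a y w0)
            (∑ i, ‖c i‖ * ((1 + Real.exp ((‖w0‖ + 1) * t i)) * K * t i)) (fun x1 x2 x3 => ?_)
            (fun r => S r z) w0 hd fun r hr => ?_
          · refine norm_le_of_forall_mem_frontier_norm_le (U := ball w0 1) isBounded_ball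
              (f := fun w => a x1 w - a x2 w - a x3 w)
              (((a1 x1).sub (a1 x2)).sub (a1 x3)).diffContOnCl (fun w hw => ?_)
              (subset_closure (mem_ball_self one_pos))
            rw [frontier_ball w0 one_ne_zero, mem_sphere_iff_norm] at hw
            have e : g t c (u (x1 - x2 - x3)) w = (w - w0) ^ k * (a x1 w - a x2 w - a x3 w) := by
              rw [gadd, gadd, a2, a2, a2]; ring
            have e' := congrArg norm e
            rw [norm_mul, norm_pow, hw, one_pow, one_mul] at e'
            rw [← e', sum_mul]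
            refine (norm_sum_le _ _).trans (sum_le_sum fun i _ => ?_)
            have h1 := E_le1 _ (t i) _ (t0 i) (hK (x1 - x2 - x3) i) w
            have h2 : w.re ≤ ‖w0‖ + 1 := by
              have := norm_add_le (w - w0) w0
              rw [sub_add_cancel, hw] at this
              linarith [re_le_norm w]
            have h3 : 0 ≤ K * ‖x1 - x2 - x3‖ := (norm_nonneg _).trans (hK _ i 0 ⟨le_rfl, t0 i⟩)
            have h4 := t0 i
            rw [norm_mul, mul_assoc]
            refine mul_le_mul_of_nonneg_left (h1.trans ?_) (norm_nonneg _)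
            calc (1 + Real.exp (w.re * t i)) * (K * ‖x1 - x2 - x3‖) * t i
                ≤ (1 + Real.exp ((‖w0‖ + 1) * t i)) * (K * ‖x1 - x2 - x3‖) * t i := by gcongr
              _ = _ := by ring
          · obtain ⟨d, rfl⟩ := Nat.exists_eq_add_of_le hk
            have := ext_at (f := fun w => exp (w * r) * a z w - a (S r z) w)
              (f' := fun w => (w - w0) ^ (d + 1) * b w * E (u z) r w) (w0 := w0)
              (by have := (a1 z).continuous; have := (a1 (S r z)).continuous; fun_prop)
              (by have := b1.continuousAt; have := (E_diff _ (hu z) r).continuous; fun_prop) (by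
                filter_upwards [self_mem_nhdsWithin, nhdsWithin_le_nhds b3] with w h1 h2
                have h3 := sh r z w hr
                rw [a2, a2, h2, smul_eq_mul] at h3
                apply mul_left_cancel₀ (pow_ne_zero k (sub_ne_zero.2 h1))
                linear_combination h3)
            simp only [sub_self, ne_eq, Nat.add_eq_zero_iff, one_ne_zero, and_false,
              not_false_eq_true, zero_pow, zero_mul] at this
            simp only [z0]
            linear_combination -this
        refine fun y => ⟨dslope (a y) w0, differentiableOn_univ.1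
          ((differentiableOn_dslope univ_mem).2 (a1 y).differentiableOn), fun w => ?_⟩
        have := sub_smul_dslope (a y) w0 w
        rw [z1, sub_zero, smul_eq_mul] at this
        rw [a2, ← this]; ring
    intro y
    obtain ⟨a, a1, a2⟩ := ind m le_rfl y
    refine ⟨fun w => a w / b w, (a1.analyticAt w0).div b1 b2, ?_⟩
    filter_upwards [b3, b1.continuousAt.eventually_ne b2] with w h1 h2
    rw [a2, h1, smul_eq_mul]; field_simp
  have g0 : ∀ y w, g t c (u y) w = 0 := by
    intro y w
    obtain ⟨F, F1, F2⟩ := divide _ _ hφ fun w0 => loc w0 y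
    rw [F2, glob t ht t0 c i0 hi hc (u y) _ (hK y) F F1 F2, zero_mul]
  obtain ⟨w, hw⟩ := (hφ 0).exists
  have E0 : ∀ r : ℝ, 0 ≤ r → ∫ s in (0 : ℝ)..r, exp (-(w * s)) * u y s = 0 := by
    intro r hr
    have h1 := sh r y w hr
    rw [g0, g0, mul_zero, sub_zero, eq_comm, mul_eq_zero] at h1
    have h2 : E (u y) r w = exp (w * r) * ∫ s in (0 : ℝ)..r, exp (-(w * s)) * u y s := by
      rw [E, ← intervalIntegral.integral_const_mul]
      refine intervalIntegral.integral_congr fun s _ => ?_
      simp only [← mul_assoc, ← exp_add]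
      ring_nf
    exact (mul_eq_zero.1 (h2 ▸ h1.resolve_left hw)).resolve_left (exp_ne_zero _)
  have hv : Continuous fun s : ℝ => exp (-(w * s)) * u y s := by have := hu y; fun_prop
  have d1 := (hv.integral_hasStrictDerivAt 0 1).hasDerivAt
  have d2 : HasDerivAt (fun r : ℝ => ∫ s in (0 : ℝ)..r, exp (-(w * s)) * u y s) 0 1 := by
    refine (hasDerivAt_const (1 : ℝ) (0 : ℂ)).congr_of_eventuallyEq ?_
    filter_upwards [lt_mem_nhds (zero_lt_one' ℝ)] with r hr using E0 r hr.le
  exact (mul_eq_zero.1 (d1.unique d2)).resolve_left (exp_ne_zero _)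

end Pool.Agent.H.MP_84e5ad_an
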